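import Pool.Agent.helper9.TH.Spec

/-! Row PBa: heredity of the property PN (subgroups, quotients, lifting over normal p'-subgroups). -/

namespace Pool.Agent.helper43.TH

open Pool.Agent.helper9.TH

universe u

theorem PBa : PBa_stmt.{u} := by
  refine ⟨?_, ?_, ?_⟩
  · rintro p H G _ _ _ _ hp f hf ⟨K, hK, hcop, k, hk⟩
    refine ⟨K.comap f, hK.comap f, ?_, ?_⟩
    · have hinj : Function.Injective (fun x : K.comap f => (⟨f x.1, x.2⟩ : K)) := by
        intro x y h
        apply Subtype.ext
        exact hf (Subtype.ext_iff.mp h)
      have hdvd : Nat.card (K.comap f) ∣ Nat.card K := by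
        let g : K.comap f →* K :=
          { toFun := fun x => ⟨f x.1, x.2⟩
            map_one' := by ext; simp
            map_mul' := by intro x y; ext; simp }
        have hg : Function.Injective g := hinj
        exact Subgroup.card_dvd_of_injective g hg
      exact Nat.Coprime.coprime_dvd_left hdvd hcop
    · have h1 : (K.comap f).index ∣ p ^ k := by
        rw [Subgroup.index_comap, ← hk]
        exact Subgroup.relIndex_dvd_index_of_normal K f.range
      obtain ⟨j, _, hj⟩ := (Nat.dvd_prime_pow hp).mp h1
      exact ⟨j, hj⟩
  · rintro p G Q _ _ _ _ hp f hf ⟨K, hK, hcop, k, hk⟩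
    refine ⟨K.map f, hK.map f hf, ?_, ?_⟩
    · exact Nat.Coprime.coprime_dvd_left (Subgroup.card_map_dvd K f) hcop
    · have h1 : (K.map f).index ∣ p ^ k := by
        rw [← hk]
        exact Subgroup.index_map_dvd K hf
      obtain ⟨j, _, hj⟩ := (Nat.dvd_prime_pow hp).mp h1
      exact ⟨j, hj⟩
  · rintro p G _ _ N _ hp hN ⟨K, hK, hcop, k, hk⟩
    refine ⟨K.comap (QuotientGroup.mk' N), hK.comap _, ?_, k, ?_⟩
    · have hle : N ≤ K.comap (QuotientGroup.mk' N) := by
        intro x hx
        rw [Subgroup.mem_comap]
        have : QuotientGroup.mk' N x = 1 := by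
          simpa using hx
        rw [this]
        exact K.one_mem
      have hidx : (K.comap (QuotientGroup.mk' N)).index = K.index :=
        Subgroup.index_comap_of_surjective K (QuotientGroup.mk'_surjective N)
      have e1 : Nat.card (K.comap (QuotientGroup.mk' N)) * K.index = Nat.card G := by
        rw [← hidx]
        exact Subgroup.card_mul_index _
      have e2 : Nat.card K * K.index = Nat.card (G ⧸ N) := Subgroup.card_mul_index K
      have e3 : Nat.card N * Nat.card (G ⧸ N) = Nat.card G := by
        have := Subgroup.card_mul_index N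
        rwa [Subgroup.index_eq_card] at this
      have hpos : 0 < K.index := Nat.pos_of_ne_zero Subgroup.index_ne_zero_of_finite
      have e4 : Nat.card (K.comap (QuotientGroup.mk' N)) = Nat.card N * Nat.card K := by
        apply Nat.eq_of_mul_eq_mul_right hpos
        rw [e1, ← e3, ← e2, mul_assoc]
      rw [e4]
      exact Nat.Coprime.mul_left hN hcop
    · rw [Subgroup.index_comap_of_surjective K (QuotientGroup.mk'_surjective N), hk]

end Pool.Agent.helper43.TH
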